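import Pool.Agent.H664.EX.Stm2
import Pool.Agent.H390.FH.Coord

/-!
Job COORDE of the project EX (helper664): unimodular change of coordinates and exponential
points.  The proof follows the first part of `Pool.Agent.H390.FH.coord`.
-/

set_option autoImplicit false

namespace Pool.Agent.H278.EX

open MvPolynomial Pool.Agent.W996.EC Pool.Agent.Q72.EG
open Pool.Agent.H664.FH Pool.Agent.H664.EX Pool.Agent.H390.FH

theorem coordE : S_coordE := by
  intro n M M' hMM hMM' E _ _ x y hy0 ⟨z, hz⟩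
  obtain ⟨K, hK⟩ := exists_K M'
  let s : MvPolynomial (Fin n ⊕ Fin n) ℂ := ∏ i, X (Sum.inr i)
  let a : Fin n ⊕ Fin n → MvPolynomial (Fin n ⊕ Fin n) ℂ :=
    Sum.elim (fun j => ∑ i, C ((M' j i : ℤ) : ℂ) * X (Sum.inl i))
      (fun j => ∏ i, X (Sum.inr i) ^ (M' j i + K).toNat)
  let κ : Fin n ⊕ Fin n → ℕ := Sum.elim (fun _ => 0) (fun _ => K)
  have hrel : ∀ (F : Type) [Field F] [Algebra ℂ F] (x x' y y' : Fin n → F),
      (∀ i, y' i ≠ 0) → (∀ j, x j = ∑ i, ((M' j i : ℤ) : F) * x' i) →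
      (∀ j, y j = ∏ i, y' i ^ M' j i) →
      ∀ i, (Sum.elim x y : Fin n ⊕ Fin n → F) i * aeval (Sum.elim x' y') s ^ κ i =
        aeval (Sum.elim x' y') (a i) := by
    intro F _ _ x x' y y' hy' hx hy i
    rcases i with j | j
    · simp only [Sum.elim_inl, κ, a, pow_zero, mul_one, map_sum, map_mul, aeval_X]
      rw [hx]
      refine Finset.sum_congr rfl fun i _ => ?_
      simp
    · simp only [Sum.elim_inr, κ, a, s, map_prod, map_pow, aeval_X]
      rw [hy, prod_shift _ K (fun i => hK j i) y' hy']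
  have hE := hrel E x (fun i => ∑ j, ((M i j : ℤ) : E) * x j) y (fun i => ∏ j, y j ^ M i j)
    (fun i => Finset.prod_ne_zero_iff.2 fun j _ => zpow_ne_zero _ (hy0 j))
    (fun j => (mul_sum_cast M' M hMM' x j).symm)
    (fun j => (prod_zpow_mul M' M hMM' y hy0 j).symm)
  let z' : Fin n → ℂ := fun j => ∑ i, ((M' j i : ℤ) : ℂ) * z i
  have hexp : ∀ j, Complex.exp (z' j) = ∏ i, Complex.exp (z i) ^ M' j i := by
    intro j
    simp only [z', Complex.exp_sum]
    refine Finset.prod_congr rfl fun i _ => ?_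
    rw [Complex.exp_int_mul]
  have hC := hrel ℂ z' z (fun l => Complex.exp (z' l)) (fun l => Complex.exp (z l))
    (fun i => Complex.exp_ne_zero _) (fun j => rfl) hexp
  have hs1 : aeval (Sum.elim z (fun l => Complex.exp (z l))) s ≠ 0 := by
    simp only [s, map_prod, aeval_X, Sum.elim_inr]
    exact Finset.prod_ne_zero_iff.2 fun i _ => Complex.exp_ne_zero _
  have hev : ∀ (p : Fin n ⊕ Fin n → ℂ) (g : MvPolynomial (Fin n ⊕ Fin n) ℂ),
      aeval p g = eval p g := by
    intro p g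
    rw [← MvPolynomial.coe_aeval_eq_eval]
    rfl
  refine ⟨z', ?_⟩
  intro g hg
  obtain ⟨B, k', hB⟩ := key s a κ g
  have h1 := hB E _ _ hE
  rw [hg, zero_mul] at h1
  have h2 := hz B h1.symm
  have h3 := hB ℂ _ _ hC
  rw [hev _ B, h2] at h3
  rw [← hev]
  exact (mul_eq_zero.1 h3).resolve_right (pow_ne_zero _ hs1)

end Pool.Agent.H278.EX
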